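import Pool.Agent.helper7.UL.SpecN

/-!
# ul:NFN (helper31)
-/

set_option autoImplicit false

namespace Pool.Agent.UL

open FirstOrder Language

theorem NFN (h1 : NSL_stmt) (h2 : NAT_stmt) (h3 : NTR_stmt) (h4 : NTH_stmt) (h5 : NIN_stmt) :
    NFN_stmt := by
  intro V hV
  let _ : LU.Structure ℕ := uStr V
  have key : ∀ (m n : ℕ) (s : Set (Fin m ⊕ Fin n → ℕ)),
      @Set.Definable ℕ Set.univ LU (uStr V) (Fin m ⊕ Fin n) s → ∃ k, ¬ShS s k := by
    intro m n s hs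
    exact h3 m n s (h2 (Fin m ⊕ Fin n) s (h1 V hV (Fin m ⊕ Fin n) s hs))
  constructor
  · apply h4 LU ℕ
    intro m n φ
    have hdef : (∅ : Set ℕ).Definable LU {v | φ.Realize v} :=
      Set.empty_definable_iff.2 ⟨φ, rfl⟩
    obtain ⟨k, hk⟩ := key m n {v | φ.Realize v} (hdef.mono (Set.subset_univ _))
    exact ⟨k, fun h => hk h⟩
  · exact h5 LU ℕ key

end Pool.Agent.UL
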