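import Pool.Agent.helper7.UL.Spec

/-!
# ul:REP (helper31)
-/

set_option autoImplicit false

open Finset

namespace Pool.Agent.UL

/-- the number with the given coordinates -/
def REP_val (o W : ℕ) (x : ℕ × ℤ) : ℕ := (((W : ℤ) - 1) * x.1 + o * x.2).toNat

lemma REP_cast (o W : ℕ) (hW : 1 ≤ W) (x : ℕ × ℤ) (hx : 0 ≤ x.2) :
    (REP_val o W x : ℤ) = ((W : ℤ) - 1) * x.1 + o * x.2 := by
  unfold REP_val
  rw [Int.toNat_of_nonneg]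
  have h1 : (0 : ℤ) ≤ (W : ℤ) - 1 := by
    have : (1 : ℤ) ≤ W := by exact_mod_cast hW
    linarith
  positivity

lemma REP_nonneg {R o W j : ℕ} {i : ℤ} (h : Sf R o W j i = true) : 0 ≤ i := by
  unfold Sf at h
  rw [Bool.and_eq_true, decide_eq_true_iff] at h
  exact h.1

/-- the ordered pair `p` consists of the values of the two points of `q` -/
def REP_rel (o W : ℕ) (q : (ℕ × ℤ) × (ℕ × ℤ)) (p : ℕ × ℕ) : Prop :=
  p.1 < p.2 ∧ ((p.1 = REP_val o W q.1 ∧ p.2 = REP_val o W q.2) ∨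
    (p.1 = REP_val o W q.2 ∧ p.2 = REP_val o W q.1))

lemma REP_D (o W : ℕ) (q : (ℕ × ℤ) × (ℕ × ℤ)) (p p' : ℕ × ℕ) (h : REP_rel o W q p)
    (h' : REP_rel o W q p') : p = p' := by
  obtain ⟨h1, h2⟩ := h
  obtain ⟨h3, h4⟩ := h'
  apply Prod.ext <;> omega

lemma REP_swap (o W : ℕ) (q : (ℕ × ℤ) × (ℕ × ℤ)) (p : ℕ × ℕ) (h : REP_rel o W (q.2, q.1) p) :
    REP_rel o W q p := ⟨h.1, h.2.symm⟩

lemma REP_A (h1 : CRD_stmt) (R o W : ℕ) (ho : 1 ≤ o) (hW : 1 ≤ W) (hc : Nat.Coprime o (W - 1))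
    (J : ℕ) (I : ℤ) (M : ℕ) (hM : (M : ℤ) = ((W : ℤ) - 1) * J + o * I)
    (q : (ℕ × ℤ) × (ℕ × ℤ)) (hq : RepS R o W J I q) :
    ∃ p, TR (Tset R o W) M p ∧ REP_rel o W q p := by
  obtain ⟨ha, hb, hs1, hs2, hne, ε, _, hj, hi⟩ := hq
  have v1 := REP_cast o W hW q.1 (REP_nonneg hs1)
  have v2 := REP_cast o W hW q.2 (REP_nonneg hs2)
  have hT1 : REP_val o W q.1 ∈ Tset R o W := ⟨q.1.1, ha, q.1.2, hs1, v1⟩
  have hT2 : REP_val o W q.2 ∈ Tset R o W := ⟨q.2.1, hb, q.2.2, hs2, v2⟩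
  have hsum : REP_val o W q.1 + REP_val o W q.2 = M := by
    have hj' : (q.1.1 : ℤ) + q.2.1 = J + ε * o := by exact_mod_cast hj
    have h2 : ((REP_val o W q.1 + REP_val o W q.2 : ℕ) : ℤ) = M := by
      rw [Nat.cast_add, v1, v2, hM]
      have h3 : ((W : ℤ) - 1) * q.1.1 + o * q.1.2 + (((W : ℤ) - 1) * q.2.1 + o * q.2.2) =
          ((W : ℤ) - 1) * ((q.1.1 : ℤ) + q.2.1) + o * (q.1.2 + q.2.2) := by ring
      rw [h3, hj', hi]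
      ring
    exact_mod_cast h2
  have hvne : REP_val o W q.1 ≠ REP_val o W q.2 := by
    intro h
    apply hne
    have h2 : ((W : ℤ) - 1) * q.1.1 + o * q.1.2 = ((W : ℤ) - 1) * q.2.1 + o * q.2.2 := by
      rw [← v1, ← v2, h]
    obtain ⟨h3, h4⟩ := (h1 o W ho hW hc).2 _ ha _ hb _ _ h2
    exact Prod.ext h3 h4
  rcases lt_or_gt_of_ne hvne with h | h
  · exact ⟨(REP_val o W q.1, REP_val o W q.2), ⟨h, hT1, hT2, hsum⟩, h, Or.inl ⟨rfl, rfl⟩⟩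
  · exact ⟨(REP_val o W q.2, REP_val o W q.1), ⟨h, hT2, hT1, by rw [add_comm]; exact hsum⟩, h,
      Or.inr ⟨rfl, rfl⟩⟩

lemma REP_B (h1 : CRD_stmt) (R o W : ℕ) (ho : 1 ≤ o) (hW : 1 ≤ W) (hc : Nat.Coprime o (W - 1))
    (J : ℕ) (I : ℤ) (q q' : (ℕ × ℤ) × (ℕ × ℤ)) (hq : RepS R o W J I q)
    (hq' : RepS R o W J I q') (p : ℕ × ℕ) (h : REP_rel o W q p) (h' : REP_rel o W q' p) :
    q' = q ∨ q' = (q.2, q.1) := by
  obtain ⟨ha, hb, hs1, hs2, _⟩ := hq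
  obtain ⟨ha', hb', hs1', hs2', _⟩ := hq'
  have key : ∀ x y : ℕ × ℤ, x.1 < o → y.1 < o → 0 ≤ x.2 → 0 ≤ y.2 →
      REP_val o W x = REP_val o W y → x = y := by
    intro x y hx hy hx0 hy0 hxy
    have h2 : ((W : ℤ) - 1) * x.1 + o * x.2 = ((W : ℤ) - 1) * y.1 + o * y.2 := by
      rw [← REP_cast o W hW x hx0, ← REP_cast o W hW y hy0, hxy]
    obtain ⟨h3, h4⟩ := (h1 o W ho hW hc).2 _ hx _ hy _ _ h2
    exact Prod.ext h3 h4
  have k1 := REP_nonneg hs1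
  have k2 := REP_nonneg hs2
  have k3 := REP_nonneg hs1'
  have k4 := REP_nonneg hs2'
  rcases h.2 with ⟨e1, e2⟩ | ⟨e1, e2⟩ <;> rcases h'.2 with ⟨e3, e4⟩ | ⟨e3, e4⟩
  · left
    exact Prod.ext (key _ _ ha' ha k3 k1 (by rw [← e3, e1])) (key _ _ hb' hb k4 k2 (by rw [← e4, e2]))
  · right
    exact Prod.ext (key _ _ ha' hb k3 k2 (by rw [← e4, e2])) (key _ _ hb' ha k4 k1 (by rw [← e3, e1]))
  · right
    exact Prod.ext (key _ _ ha' hb k3 k2 (by rw [← e3, e1])) (key _ _ hb' ha k4 k1 (by rw [← e4, e2]))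
  · left
    exact Prod.ext (key _ _ ha' ha k3 k1 (by rw [← e4, e2])) (key _ _ hb' hb k4 k2 (by rw [← e3, e1]))

lemma REP_C (R o W : ℕ) (ho : 1 ≤ o) (hW : 1 ≤ W) (hc : Nat.Coprime o (W - 1))
    (J : ℕ) (hJ : J < o) (I : ℤ) (M : ℕ) (hM : (M : ℤ) = ((W : ℤ) - 1) * J + o * I)
    (p : ℕ × ℕ) (hp : TR (Tset R o W) M p) :
    ∃ q, RepS R o W J I q ∧ REP_rel o W q p := by
  obtain ⟨hlt, ⟨j₁, hj₁, i₁, hs₁, hv₁⟩, ⟨j₂, hj₂, i₂, hs₂, hv₂⟩, hsum⟩ := hp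
  have hsum' : (p.1 : ℤ) + p.2 = M := by exact_mod_cast hsum
  have hW' : (((W - 1 : ℕ) : ℤ)) = (W : ℤ) - 1 := by
    rw [Nat.cast_sub hW]
    simp
  have heq : ((W : ℤ) - 1) * ((j₁ : ℤ) + j₂ - J) = o * (I - i₁ - i₂) := by
    rw [hv₁, hv₂, hM] at hsum'
    linarith
  have hdvd : (o : ℤ) ∣ (j₁ : ℤ) + j₂ - J := by
    have h2 : IsCoprime (o : ℤ) ((W : ℤ) - 1) := by
      rw [← hW']
      exact Nat.isCoprime_iff_coprime.2 hc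
    exact h2.dvd_of_dvd_mul_left ⟨_, heq⟩
  obtain ⟨c, hcc⟩ := hdvd
  have ho' : (0 : ℤ) < o := by exact_mod_cast ho
  have hj₁' : (j₁ : ℤ) < o := by exact_mod_cast hj₁
  have hj₂' : (j₂ : ℤ) < o := by exact_mod_cast hj₂
  have hJ' : (J : ℤ) < o := by exact_mod_cast hJ
  have hc0 : 0 ≤ c := by
    by_contra hneg
    have h3 : c ≤ -1 := by omega
    have h4 : (o : ℤ) * c ≤ o * (-1) := mul_le_mul_of_nonneg_left h3 ho'.le
    have h5 : (0 : ℤ) ≤ (j₁ : ℤ) + j₂ := by positivity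
    linarith
  have hc1 : c ≤ 1 := by
    by_contra hneg
    have h3 : 2 ≤ c := by omega
    have h4 : (o : ℤ) * 2 ≤ o * c := mul_le_mul_of_nonneg_left h3 ho'.le
    have h5 : (0 : ℤ) ≤ (J : ℤ) := by positivity
    linarith
  have hI : I - i₁ - i₂ = c * ((W : ℤ) - 1) := by
    have h3 : (o : ℤ) * (I - i₁ - i₂) = o * (c * ((W : ℤ) - 1)) := by
      rw [← heq, hcc]
      ring
    exact mul_left_cancel₀ ho'.ne' h3
  obtain ⟨ε, rfl⟩ := Int.eq_ofNat_of_zero_le hc0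
  refine ⟨((j₁, i₁), (j₂, i₂)), ⟨hj₁, hj₂, hs₁, hs₂, ?_, ε, ?_, ?_, ?_⟩, hlt, Or.inl ⟨?_, ?_⟩⟩
  · intro h
    rw [Prod.mk.injEq] at h
    have h3 : (p.1 : ℤ) = p.2 := by
      rw [hv₁, hv₂]
      show ((W : ℤ) - 1) * (j₁ : ℤ) + o * i₁ = ((W : ℤ) - 1) * (j₂ : ℤ) + o * i₂
      rw [h.1, h.2]
    have h4 : p.1 = p.2 := by exact_mod_cast h3
    omega
  · exact_mod_cast hc1
  · show j₁ + j₂ = J + ε * o
    have h3 : ((j₁ + j₂ : ℕ) : ℤ) = ((J + ε * o : ℕ) : ℤ) := by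
      push_cast
      linarith
    exact_mod_cast h3
  · show i₁ + i₂ = I - ε * ((W : ℤ) - 1)
    have h3 : I - i₁ - i₂ = (ε : ℤ) * ((W : ℤ) - 1) := hI
    linarith
  · have h3 := REP_cast o W hW (j₁, i₁) (REP_nonneg hs₁)
    have h4 : (p.1 : ℤ) = (REP_val o W (j₁, i₁) : ℤ) := by
      rw [h3, hv₁]
    exact_mod_cast h4
  · have h3 := REP_cast o W hW (j₂, i₂) (REP_nonneg hs₂)
    have h4 : (p.2 : ℤ) = (REP_val o W (j₂, i₂) : ℤ) := by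
      rw [h3, hv₂]
    exact_mod_cast h4

theorem REP (h1 : CRD_stmt) : REP_stmt := by
  intro R o W ho hW hc J hJ I M hM
  refine ⟨?_, ?_, ?_, ?_⟩
  · rintro ⟨q, q', hq, hq', hne, hne'⟩
    obtain ⟨p, hp, hr⟩ := REP_A h1 R o W ho hW hc J I M hM q hq
    obtain ⟨p', hp', hr'⟩ := REP_A h1 R o W ho hW hc J I M hM q' hq'
    refine ⟨p, p', hp, hp', ?_⟩
    rintro rfl
    rcases REP_B h1 R o W ho hW hc J I q' q hq' hq p hr' hr with h | h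
    · exact hne h
    · exact hne' h
  · intro hN p hp
    obtain ⟨q, hq, _⟩ := REP_C R o W ho hW hc J hJ I M hM p hp
    exact hN q hq
  · intro q₀ hq₀
    obtain ⟨p, hp, hr⟩ := REP_A h1 R o W ho hW hc J I M hM q₀ ((hq₀ q₀).2 (Or.inl rfl))
    refine ⟨p, hp, ?_⟩
    intro p' hp'
    obtain ⟨q, hq, hr'⟩ := REP_C R o W ho hW hc J hJ I M hM p' hp'
    rcases (hq₀ q).1 hq with rfl | rfl
    · exact REP_D o W _ _ _ hr' hr
    · exact REP_D o W _ _ _ (REP_swap o W _ _ hr') hr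
  · rintro ⟨q, hq⟩
    obtain ⟨p, hp, _⟩ := REP_A h1 R o W ho hW hc J I M hM q hq
    exact ⟨p, hp⟩

end Pool.Agent.UL
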