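import Pool.Agent.helper7.UL.Spec

/-!
# ul:UPD (helper31)
-/

set_option autoImplicit false

open Finset

namespace Pool.Agent.UL

lemma UPD_le (c b : ℕ) (hc : c ≠ 0) (h : c.testBit b = true) : b ≤ c.log2 := by
  rw [Nat.le_log2 hc]
  exact Nat.ge_two_pow_of_testBit h

lemma UPD_one (n c b : ℕ) (hc : c < 2 ^ n) :
    (up1 c).testBit b = true ↔ 1 ≤ ((Ico (b + 1) n).filter fun b' => c.testBit b' = true).card := by
  rw [Nat.succ_le_iff, Finset.card_pos]
  unfold up1
  by_cases h0 : c = 0
  · subst h0
    simp
  · rw [if_neg h0, Nat.testBit_two_pow_sub_one, decide_eq_true_iff]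
    constructor
    · intro hb
      refine ⟨c.log2, ?_⟩
      rw [Finset.mem_filter, Finset.mem_Ico]
      refine ⟨⟨hb, ?_⟩, Nat.testBit_log2 h0⟩
      rw [Nat.log2_lt h0]
      exact hc
    · rintro ⟨b', hb'⟩
      rw [Finset.mem_filter, Finset.mem_Ico] at hb'
      have := UPD_le c b' h0 hb'.2
      omega

theorem UPD : UPD_stmt := by
  intro n c b hc
  refine ⟨UPD_one n c b hc, ?_⟩
  have h1 := UPD_one n (c - 2 ^ c.log2) b (lt_of_le_of_lt (Nat.sub_le _ _) hc)
  have h2 : up2 c = up1 (c - 2 ^ c.log2) := rfl
  rw [h2, h1]
  by_cases h0 : c = 0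
  · subst h0
    simp
  · have hle : 2 ^ c.log2 ≤ c := Nat.log2_self_le h0
    have hlt : c < 2 ^ (c.log2 + 1) := Nat.lt_log2_self
    obtain ⟨c', hc'⟩ := Nat.exists_eq_add_of_le hle
    have hc'' : c - 2 ^ c.log2 = c' := by omega
    have hlt' : c' < 2 ^ c.log2 := by
      rw [pow_succ] at hlt
      omega
    rw [hc'']
    by_cases hb : b < c.log2
    · have h3 : ((Ico (b + 1) n).filter fun b' => c.testBit b' = true) =
          insert c.log2 ((Ico (b + 1) n).filter fun b' => c'.testBit b' = true) := by
        ext b'
        rw [Finset.mem_insert, Finset.mem_filter, Finset.mem_filter, Finset.mem_Ico]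
        constructor
        · rintro ⟨h4, h5⟩
          by_cases h6 : b' = c.log2
          · exact Or.inl h6
          · right
            refine ⟨h4, ?_⟩
            have h7 := UPD_le c b' h0 h5
            rw [hc', Nat.testBit_two_pow_add_gt (by omega)] at h5
            exact h5
        · rintro (rfl | ⟨h4, h5⟩)
          · refine ⟨⟨hb, ?_⟩, Nat.testBit_log2 h0⟩
            rw [Nat.log2_lt h0]
            exact hc
          · refine ⟨h4, ?_⟩
            have h6 : b' < c.log2 := by
              by_contra h7
              rw [Nat.testBit_lt_two_pow (lt_of_lt_of_le hlt'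
                (Nat.pow_le_pow_right (by norm_num) (not_lt.1 h7)))] at h5
              exact Bool.false_ne_true h5
            rw [hc', Nat.testBit_two_pow_add_gt h6]
            exact h5
      rw [h3, Finset.card_insert_of_notMem]
      · omega
      · rw [Finset.mem_filter, Nat.testBit_lt_two_pow hlt']
        rintro ⟨_, h⟩
        exact Bool.false_ne_true h
    · have h3 : ((Ico (b + 1) n).filter fun b' => c.testBit b' = true) = ∅ := by
        rw [Finset.filter_eq_empty_iff]
        intro b' hb' h4
        rw [Finset.mem_Ico] at hb'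
        have := UPD_le c b' h0 h4
        omega
      have h4 : ((Ico (b + 1) n).filter fun b' => c'.testBit b' = true) = ∅ := by
        rw [Finset.filter_eq_empty_iff]
        intro b' hb' h5
        rw [Finset.mem_Ico] at hb'
        rw [Nat.testBit_lt_two_pow (lt_of_lt_of_le hlt'
          (Nat.pow_le_pow_right (by norm_num) (by omega)))] at h5
        exact Bool.false_ne_true h5
      rw [h3, h4]
      simp

end Pool.Agent.UL
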